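import Pool.Agent.W990.EB.Stm

/-!
# Nonnegativity and Cauchy-Schwarz of the form
-/

set_option autoImplicit false
open Finset

namespace Pool.Agent.W348.EB

open Pool.Agent.W990.EB

theorem v1 (h : S_V0) : S_V1 := by
  intro ι K I m U hK
  rw [h ι K I m U hK]
  refine mul_nonneg (by positivity) ?_
  exact Finset.sum_nonneg fun i _ => Finset.sum_nonneg fun j _ => tsum_nonneg fun x => sq_nonneg _

theorem w_neg (K : ℕ) (m : ℤ) : w K (-m) = w K m := by
  unfold w
  have h1 : (if -m = 0 then (1 : ℝ) else 0) = if m = 0 then 1 else 0 := by simp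
  rw [h1, Finset.sum_comm]
  congr 2
  refine Finset.sum_congr rfl fun i _ => Finset.sum_congr rfl fun j _ => ?_
  have h2 : (-m = (j : ℤ) - i) ↔ (m = (i : ℤ) - j) := by
    constructor <;> intro h <;> omega
  simp only [h2]

/-- the bilinear form -/
noncomputable def B {ι : Type} (K : ℕ) (I : Finset ι) (m : ι → ℤ) (U V : ι → ℝ) : ℝ :=
  ∑ i ∈ I, ∑ j ∈ I, w K (m i - m j) * (U i * V j)

theorem B_symm {ι : Type} (K : ℕ) (I : Finset ι) (m : ι → ℤ) (U V : ι → ℝ) :
    B K I m V U = B K I m U V := by
  unfold B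
  rw [Finset.sum_comm]
  refine Finset.sum_congr rfl fun i _ => Finset.sum_congr rfl fun j _ => ?_
  rw [← w_neg K (m i - m j), neg_sub]
  ring

theorem W_add {ι : Type} (K : ℕ) (I : Finset ι) (m : ι → ℤ) (U V : ι → ℝ) (s : ℝ) :
    W K I m (fun i => U i + s * V i) = W K I m U + 2 * s * B K I m U V + s ^ 2 * W K I m V := by
  have h1 : W K I m (fun i => U i + s * V i) =
      W K I m U + s * B K I m U V + s * B K I m V U + s ^ 2 * W K I m V := by
    unfold W B
    simp only [Finset.mul_sum]
    rw [← Finset.sum_add_distrib, ← Finset.sum_add_distrib, ← Finset.sum_add_distrib]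
    refine Finset.sum_congr rfl fun i _ => ?_
    rw [← Finset.sum_add_distrib, ← Finset.sum_add_distrib, ← Finset.sum_add_distrib]
    refine Finset.sum_congr rfl fun j _ => ?_
    ring
  rw [h1, B_symm]
  ring

theorem vc (h : S_V1) : S_VC := by
  intro ι K I m U V c hK
  have hU := h ι K I m U hK
  have hV := h ι K I m V hK
  have hquad : ∀ s : ℝ, 0 ≤ W K I m V * (s * s) + 2 * B K I m U V * s + W K I m U := by
    intro s
    have h1 := h ι K I m (fun i => U i + s * V i) hK
    rw [W_add] at h1
    nlinarith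
  have hd := discrim_le_zero hquad
  unfold discrim at hd
  have hB : |B K I m U V| ≤ Real.sqrt (W K I m U) * Real.sqrt (W K I m V) := by
    rw [← Real.sqrt_mul hU]
    refine Real.abs_le_sqrt ?_
    nlinarith
  rw [W_add]
  have h2 : c * B K I m U V ≤ |c| * (Real.sqrt (W K I m U) * Real.sqrt (W K I m V)) := by
    calc c * B K I m U V ≤ |c * B K I m U V| := le_abs_self _
      _ = |c| * |B K I m U V| := abs_mul _ _
      _ ≤ _ := mul_le_mul_of_nonneg_left hB (abs_nonneg c)
  nlinarith

end Pool.Agent.W348.EB
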